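import Pool.Agent.Lib.MP_f79ffc_lc.U.A.Outer
import Pool.Agent.Lib.MP_f79ffc_lc.U.G.Api
import Pool.Agent.Lib.MP_f79ffc_lc.U.L.Mor

/-! The generator as a condition of the outer forcing. -/

namespace Pool.Agent.Lib.MP_f79ffc_lc.U

open Pool.Agent.Lib.MP_5d9fac_lc Pool.Agent.Lib.MP_f79ffc_lc.R Cardinal

/-- the data of a generator step -/
structure GD : Type 1 where
  q : Cond
  d : q.I
  hd : d ≤ q.top
  ρ : Mu
  δ : Mu
  uniq : ∀ u, q.blk u = q.blk d → u = d
  hρ : ∀ i, q.blk i < q.blk d → q.blk i < ρ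
  hδ : ρ < δ

theorem ca_inj {Y : Type} (h : #Y ≤ 𝔠) : ∃ f : Y → Lb, Function.Injective f :=
  (exists_nm h (fun _ _ => False) (fun _ _ _ h => h.elim) fun _ _ _ h => h.elim).imp fun _ h => h.1

namespace GD

variable (G : GD)

/-- the root indices -/
abbrev Rt : Type := {i : G.q.I // G.q.blk i < G.q.blk G.d ∨ i = G.d}

/-- the petal indices -/
abbrev Pe : Type := {i : G.q.I // G.q.blk G.d ≤ G.q.blk i}

theorem d_le (j : G.Pe) : G.d ≤ j.1 := by
  rcases j.2.lt_or_eq with h | h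
  · exact (G.q.lt_iff h).2 G.hd
  · exact (G.uniq _ h.symm).ge

/-- the template -/
@[reducible] def τ : Tp G.Rt G.Pe G.q.I where
  a := ⟨G.d, Or.inr rfl⟩
  bot := ⟨G.d, le_rfl⟩
  top := ⟨G.q.top, G.q.blk_top _⟩
  bot_le := G.d_le
  ρ := Subtype.val
  w := Subtype.val
  ρm _ _ h := h
  wm _ _ h := h
  le := G.d_le
  St := G.q.S

open Classical in
/-- the blocks of the root indices -/
noncomputable def rb (i : G.Rt) : Mu := if i.1 = G.d then G.ρ else G.q.blk i.1

variable {G}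

theorem rb_lt {i : G.Rt} (h : G.q.blk i.1 < G.q.blk G.d) : G.rb i = G.q.blk i.1 :=
  if_neg fun e => h.ne (by rw [e])

theorem rb_d {i : G.Rt} (h : i.1 = G.d) : G.rb i = G.ρ := if_pos h

theorem rb_le (i : G.Rt) : G.rb i ≤ G.ρ := by
  rcases i.2 with h | h
  · rw [rb_lt h]
    exact (G.hρ _ h).le
  · exact (rb_d h).le

theorem rb_lt_δ (i : G.Rt) : G.rb i < G.δ := (rb_le i).trans_lt G.hδ

theorem le_d_iff (i : G.Rt) : i.1 ≤ G.d ↔ i.1 ≤ G.q.top := by
  rcases i.2 with h | h
  · exact G.q.lt_iff h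
  · exact iff_of_true h.le (h.le.trans G.hd)

variable (G)

theorem mk_Nd : #(Nd G.τ.top) ≤ 𝔠 := by
  refine (mk_le_of_surjective (f := fun u : Option (Option G.Pe) =>
    (u.elim .N fun v => v.elim .M .C : Nd G.τ.top)) fun u => ?_).trans ?_
  · cases u
    exacts [⟨none, rfl⟩, ⟨some none, rfl⟩, ⟨some (some _), rfl⟩]
  · have h : #G.Pe ≤ 𝔠 := (mk_subtype_le _).trans G.q.cardI
    have h1 : (1 : Cardinal) ≤ 𝔠 := one_le_aleph0.trans aleph0_le_continuum
    rw [mk_option, mk_option]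
    exact add_le_of_le aleph0_le_continuum (add_le_of_le aleph0_le_continuum h h1) h1

/-- the blocks of the generator condition -/
noncomputable def gb : GI G.τ.a G.τ.top → Mu
  | .root i => G.rb i
  | .nd _ => G.δ

/-- its tags -/
noncomputable def gt : GI G.τ.a G.τ.top → Lb
  | .root i => G.q.tag i.1
  | .nd u => (ca_inj G.mk_Nd).choose u

/-- its names -/
noncomputable def gn : ∀ i, G.τ.Sg.X i → Lb
  | .root i => G.q.nm i.1
  | .nd u => (ca_inj (G.τ.mk_Sg G.q.K G.q.cardX (.nd u))).choose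

/-- the generator condition -/
@[reducible] noncomputable def qg : Cond where
  I := GI G.τ.a G.τ.top
  inst := inferInstance
  blk := G.gb
  tag := G.gt
  top := .nd .N
  key_inj {i j} h h' := by
    cases i <;> cases j
    · rename_i i j
      refine congrArg GI.root (Subtype.ext ?_)
      have h0 : G.rb i = G.rb j := h
      rcases i.2 with a | a <;> rcases j.2 with b | b
      · exact G.q.key_inj (by rwa [rb_lt a, rb_lt b] at h0) h'
      · rw [rb_lt a, rb_d b] at h0
        exact absurd h0 (G.hρ _ a).ne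
      · rw [rb_d a, rb_lt b] at h0
        exact absurd h0.symm (G.hρ _ b).ne
      · rw [a, b]
    · exact absurd h (rb_lt_δ _).ne
    · exact absurd h.symm (rb_lt_δ _).ne
    · exact congrArg GI.nd ((ca_inj G.mk_Nd).choose_spec h')
  le_blk {i j} h := by
    cases i <;> cases j
    · rename_i i j
      show G.rb i ≤ G.rb j
      have h1 := G.q.le_blk (show i.1 ≤ j.1 from h)
      rcases j.2 with b | b
      · rw [rb_lt b, rb_lt (h1.trans_lt b)]
        exact h1
      · rw [rb_d b]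
        exact rb_le i
    · exact (rb_lt_δ _).le
    · exact h.elim
    · exact le_rfl
  blk_top i := by
    cases i
    exacts [(rb_lt_δ _).le, le_rfl]
  lt_iff {i j} h := by
    cases i <;> cases j
    · rename_i i j
      have h0 : G.rb i < G.rb j := h
      show i.1 ≤ j.1 ↔ i.1 ≤ G.d
      rcases j.2 with b | b
      · rcases i.2 with a | a
        · rw [rb_lt a, rb_lt b] at h0
          rw [G.q.lt_iff h0, G.q.lt_iff a]
        · rw [rb_d a] at h0
          exact absurd (rb_le j) (not_le.2 h0)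
      · rw [b]
    · exact Iff.rfl
    · exact absurd h (rb_lt_δ _).not_gt
    · exact absurd h (lt_irrefl _)
  S := G.τ.Sg
  K := G.τ.K_Sg G.q.K
  cardI := by
    refine (mk_le_of_surjective (f := fun u : G.Rt ⊕ Nd G.τ.top =>
      (u.elim .root .nd : GI G.τ.a G.τ.top)) fun u => ?_).trans ?_
    · cases u
      exacts [⟨.inl _, rfl⟩, ⟨.inr _, rfl⟩]
    · rw [mk_sum, lift_id, lift_id]
      exact add_le_of_le aleph0_le_continuum ((mk_subtype_le _).trans G.q.cardI) G.mk_Nd
  cardX := G.τ.mk_Sg G.q.K G.q.cardX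
  nm := G.gn
  nm_inj i := by
    cases i
    exacts [G.q.nm_inj _, (ca_inj (G.τ.mk_Sg G.q.K G.q.cardX (.nd _))).choose_spec]

instance (i : GI G.τ.a G.τ.top) : Fact (CCC (G.τ.Sg.X i)) := ⟨(G.τ.K_Sg G.q.K).ccc i⟩

variable {G}

/-- conditions below the root are extended by the generator condition -/
noncomputable def ext {q : Cond} (E : Exn q G.q) (h : q.blk q.top < G.q.blk G.d) : Exn q G.qg :=
  have hl : ∀ i, G.q.blk (E.f i) < G.q.blk G.d := fun i => by
    rw [E.blk]
    exact (q.blk_top i).trans_lt h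
  { f := fun i => .root ⟨E.f i, Or.inl (hl i)⟩
    mono := fun _ _ h => E.mono h
    refl := fun h => E.refl h
    blk := fun i => (rb_lt (i := ⟨E.f i, _⟩) (hl i)).trans (E.blk i)
    tag := E.tag
    onto := fun u i hu => by
      have h1 : q.blk i < G.ρ := (E.blk i) ▸ G.hρ _ (hl i)
      cases u with
      | root u =>
        have h0 : G.rb u = q.blk i := hu
        rcases u.2 with a | a
        · obtain ⟨j, hj⟩ := E.onto u.1 i ((rb_lt a).symm.trans h0)
          exact ⟨j, congrArg GI.root (Subtype.ext hj)⟩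
        · exact absurd ((rb_d a).symm.trans h0) h1.ne'
      | nd u => exact absurd (show G.δ = q.blk i from hu) (h1.trans G.hδ).ne'
    cut := fun i => (G.q.lt_iff (hl i)).trans (E.cut i)
    m := ⟨E.m.ι, E.m.inj, E.m.comm, E.m.corr, E.m.red⟩
    nm := E.nm
    keeps := E.keeps }

theorem ext_le {q : Cond} (E : Exn q G.q) (h : q.blk q.top < G.q.blk G.d) {p : q.B} {p₀ : G.q.B}
    (hp : p₀ ≤ E.tr p) : G.τ.Lab .N (root 0) p₀ ≤ (ext E h).tr p := by
  have hl : E.f q.top ≤ G.d := (G.q.lt_iff (by rw [E.blk]; exact h)).2 E.top_le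
  refine (G.τ.lab_le_base _ _).trans ?_
  have h1 : G.τ.pA G.τ.top p₀ ≤ G.q.S.e hl (E.m.ι _ p) :=
    pj_le.2 (hp.trans (G.q.S.e_trans hl G.hd _).ge)
  exact (hm_mono _ h1).trans (G.τ.Sg.e_trans
    (show GI.root (⟨E.f q.top, Or.inl (by rw [E.blk]; exact h)⟩ : G.Rt) ≤ .root G.τ.a from hl)
    (show GI.root G.τ.a ≤ .nd .N from le_refl G.τ.a) _).le

theorem gt_of (G : GD) (tok : ∀ (q' : Cond) (E : Exn G.qg q') (q₁ : Cond) (F : Iso G.q q₁),
    Petal F G.d q' G.δ → ∃ (q'' : Cond) (E' : Exn q' q'') (E₁ : Exn q₁ q'')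
      (θ : Hm (RX q'.B) q''.B), Function.Injective θ ∧ (∀ x, θ (ri x) = E'.tr x) ∧
        ∀ w, θ (rmap E.tr (G.τ.phiN w)) = E₁.tr (F.tr w)) :
    GT G.q G.d G.hd G.δ G.qg G.τ.phiN (G.τ.Lab .N (root 0)) where
  ext _ E h := ⟨ext E h, fun _ _ => ext_le E h⟩
  ne _ := G.τ.lab_ne (true_mem_root 0)
  le := G.τ.lab_le_phiN _
  atm _ _ hx _ hε := G.τ.phi_small (true_mem_root 0) hx (by exact_mod_cast hε)
  tok := tok

end GD

end Pool.Agent.Lib.MP_f79ffc_lc.U
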