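import Pool.Agent.Lib.MP_f79ffc_lc.U.C.BB

/-! Sets all of whose points come from a bounded part of the outer forcing. -/

namespace Pool.Agent.Lib.MP_f79ffc_lc.U

/-- below `f`, every point of `X` is densely equal to a point from a cut of a block at most `dl` -/
def InV (X : (ℕ → BB) → BB) (dl : Mu) (f : BB) : Prop :=
  ∀ x g, g ≠ ⊥ → g ≤ f ⊓ X x → ∃ (q : Cond) (i : q.I) (h : i ≤ q.top) (y : ℕ → q.S.X i),
    q.blk i ≤ dl ∧ g ⊓ jq q ⊤ ⊓ eqv x (fun n => jq q (q.S.e h (y n))) ≠ ⊥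

end Pool.Agent.Lib.MP_f79ffc_lc.U
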