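import Pool.Agent.Lib.MP_f79ffc_lc.U.A.Tok
import Pool.Agent.Lib.MP_f79ffc_lc.U.S.Union
import Pool.Agent.Lib.MP_f79ffc_lc.U.S.SmallBB

/-! The algebra of the outer forcing has the required properties. -/

namespace Pool.Agent.Lib.MP_f79ffc_lc.U

theorem good : GoodAlg := by
  obtain ⟨ι, -, -, h1, h2⟩ := smallAdd_BB
  exact ⟨BB, inferInstance, ι, BB_ne, h2, bigAdd_of h1 fun _ _ hX => claimA hX⟩

end Pool.Agent.Lib.MP_f79ffc_lc.U
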