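import Pool.Agent.Lib.MP_f79ffc_lc.U.A.Outer
import Pool.Agent.Lib.MP_f79ffc_lc.U.L.Mor

/-! Extensions of an isomorphic copy of a condition. -/

namespace Pool.Agent.Lib.MP_f79ffc_lc.U

open Pool.Agent.Lib.MP_5d9fac_lc

theorem ca_inv {X Y : Type} [CompleteBooleanAlgebra X] [CompleteBooleanAlgebra Y] (f : Hm X Y)
    (hf : Function.Bijective f) : ∃ g : Hm Y X, (∀ x, g (f x) = x) ∧ ∀ y, f (g y) = y := by
  let e : X ≃o Y := ⟨Equiv.ofBijective f hf, fun {_ _} => hm_le_iff hf.1⟩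
  exact ⟨(e.symm : CompleteLatticeHom Y X), e.symm_apply_apply, e.apply_symm_apply⟩

theorem ca_e_bij {I : Type} [Preorder I] (S : Sys I) {i j : I} (h : i ≤ j) (h' : j ≤ i) :
    Function.Bijective (S.e h) :=
  ⟨S.inj h, fun y => ⟨S.e h' y, by rw [S.e_trans, S.e_refl]⟩⟩

theorem ca_nm_e (q : Cond) {u v : q.I} (e : u = v) (y : q.S.X u) :
    q.nm v (q.S.e e.le y) = q.nm u y := by
  subst e
  rw [q.S.e_refl]

theorem exn_of_iso {q₀ q₁ q₂ : Cond} (F : Iso q₀ q₁) (g : q₀.I → q₂.I) (hg : Monotone g)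
    (refl : ∀ {i j}, g i ≤ g j → i ≤ j) (blk : ∀ i, q₂.blk (g i) = q₁.blk (F.f i))
    (tag : ∀ i, q₂.tag (g i) = q₁.tag (F.f i))
    (onto : ∀ u i, q₂.blk u = q₁.blk (F.f i) → ∃ j, g j = u)
    (cut : ∀ i, g i ≤ q₂.top ↔ i ≤ q₀.top) (m : Mor q₀.S (q₂.S.comap g hg))
    (nm : ∀ i x, q₂.nm (g i) (m.ι i x) = q₀.nm i x)
    (keeps : ∀ {i j} (h : i ≤ j), q₁.blk (F.f i) = q₁.blk (F.f j) → m.Keeps h) :
    ∃ E : Exn q₁ q₂, ∀ w, E.tr (F.tr w) = q₂.S.e ((cut _).2 le_rfl) (m.ι q₀.top w) := by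
  have hs : ∀ u, F.f (F.f.symm u) = u := F.f.apply_symm_apply
  have hb : ∀ u, Function.Bijective ((q₁.S.e (hs u).le).comp (F.m.ι (F.f.symm u))) := fun u =>
    (ca_e_bij q₁.S (hs u).le (hs u).ge).comp ⟨F.m.inj _, F.surj _⟩
  choose a a1 a2 using fun u => ca_inv _ (hb u)
  have hab : ∀ u, Function.Bijective (a u) := fun u =>
    ⟨Function.LeftInverse.injective (a2 u), Function.RightInverse.surjective (a1 u)⟩
  have key : ∀ {i : q₀.I} {u : q₁.I} (h : F.f i ≤ u) (h' : i ≤ F.f.symm u) (x : q₀.S.X i),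
      a u (q₁.S.e h (F.m.ι i x)) = q₀.S.e h' x := fun {i u} h h' x => by
    rw [← a1 u (q₀.S.e h' x)]
    congr 1
    exact ((q₁.S.e_trans (F.f.monotone h') (hs u).le _).symm.trans
      (congrArg (q₁.S.e (hs u).le) (F.m.comm h' x)))
  let A : Mor q₁.S (q₀.S.comap F.f.symm F.f.symm.monotone) := Mor.ofBij a hab fun {u v} h x => by
    obtain ⟨y, rfl⟩ := (hb u).2 x
    rw [a1]
    exact ((congrArg (a v) (q₁.S.e_trans (hs u).le h _)).trans
      (key ((hs u).le.trans h) (F.f.symm.monotone h) y)).symm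
  have ht : F.f.symm q₁.top = q₀.top := by rw [← F.top, F.f.symm_apply_apply]
  refine ⟨⟨fun u => g (F.f.symm u), hg.comp F.f.symm.monotone,
    fun h => F.f.symm.le_iff_le.1 (refl h), fun u => by rw [blk, hs], fun u => by rw [tag, hs],
    fun u i h => ?_, fun u => ?_, A.comp (m.comap F.f.symm F.f.symm.monotone), fun u x => ?_,
    fun {u v} h hb' => ?_⟩, fun w => ?_⟩
  · obtain ⟨j, rfl⟩ := onto u (F.f.symm i) (by rwa [hs])
    exact ⟨F.f j, by rw [F.f.symm_apply_apply]⟩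
  · rw [cut, ← ht, F.f.symm.le_iff_le]
  · obtain ⟨y, rfl⟩ := (hb u).2 x
    refine (nm _ _).trans ?_
    show q₀.nm _ (a u _) = _
    rw [a1]
    exact ((ca_nm_e q₁ (hs u) _).trans (F.nm _ _)).symm
  · exact (A.keeps_of_surj h (hab v).2).comp
      (Mor.Keeps.comap (keeps (F.f.symm.monotone h) (by rwa [hs, hs])))
  · show q₂.S.e _ (m.ι _ (a q₁.top (q₁.S.e F.top.le (F.m.ι _ w)))) = _
    rw [key F.top.le ht.ge, ← m.comm ht.ge]
    exact q₂.S.e_trans _ _ _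

end Pool.Agent.Lib.MP_f79ffc_lc.U
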