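import Pool.Agent.Lib.MP_f79ffc_lc.R.Api
import Pool.Agent.Lib.MP_f79ffc_lc.U.M.BDefs

/-! The measure induced by a homomorphism into a random extension. -/

namespace Pool.Agent.Lib.MP_f79ffc_lc.U

open Pool.Agent.Lib.MP_5d9fac_lc Pool.Agent.Lib.MP_f79ffc_lc.R MeasureTheory
open Filter hiding map_inf map_sup map_top map_bot

section
variable {B : Type} [CompleteBooleanAlgebra B]

theorem ca_eqv_trans (x y z : ℕ → B) : eqv x y ⊓ eqv y z ≤ eqv x z :=
  eqv_le_iff.2 fun n =>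
    (eqv_le_iff.1 inf_le_left n).trans (eqv_le_iff.1 inf_le_right n)

theorem ca_cov {g : B} {w w' : List Bool × ℚ → B} {x x' : ℕ → B} (hw : ∀ t, g ⊓ w t ≤ w' t)
    (hx : g ≤ eqv x x') : g ⊓ cov w x ≤ cov w' x' := by
  have h1 : g ⊓ cov w x ≤ cov w x' := (inf_le_inf_right _ hx).trans (ext_cov w x x')
  refine (le_inf inf_le_left h1).trans ?_
  rw [cov, inf_iSup_eq]
  refine iSup_mono fun t => ?_
  rw [← inf_assoc]
  exact inf_le_inf_right _ (hw t)

/-- two elements above `a` can be split by a point that is not in the ground algebra -/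
theorem ca_split {A : Type} [CompleteBooleanAlgebra A] (e : Hm A B) {x : ℕ → B} {p : B}
    (hx : ∀ y : ℕ → A, p ⊓ eqv x (fun n => e (y n)) = ⊥) {u u' : B} (hu : u ≤ p) {a : A}
    (ha : a ≠ ⊥) (h1 : a ≤ pj e u) (h2 : a ≤ pj e u') : ∃ (n : ℕ) (c : Bool),
      a ⊓ pj e (u ⊓ lit c (x n)) ⊓ pj e (u' ⊓ lit (!c) (x n)) ≠ ⊥ := by
  by_contra hc
  push Not at hc
  have h3 : u ⊓ e a ≠ ⊥ := by rwa [inf_map_ne_bot, inf_eq_right.2 h1]
  refine h3 (le_bot_iff.1 ((le_inf (inf_le_left.trans hu) (eqv_le_iff.2 fun n => ?_)).trans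
    (hx fun n => pj e (u' ⊓ x n)).le))
  have k1 : u ⊓ x n ⊓ e (a ⊓ pj e (u' ⊓ (x n)ᶜ)) = ⊥ := by
    rw [inf_map_eq_bot, ← inf_assoc, inf_comm _ a]
    exact hc n true
  have k2 : u ⊓ (x n)ᶜ ⊓ e (a ⊓ pj e (u' ⊓ x n)) = ⊥ := by
    rw [inf_map_eq_bot, ← inf_assoc, inf_comm _ a]
    exact hc n false
  have k3 : e a ≤ e (pj e (u' ⊓ x n)) ⊔ e (pj e (u' ⊓ (x n)ᶜ)) := by
    rw [← map_sup, ← pj_sup, ← inf_sup_left, sup_compl_eq_top, inf_top_eq]
    exact hm_mono e h2
  rw [map_inf] at k1 k2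
  refine le_antisymm (le_inf inf_le_left ?_) (le_inf inf_le_left ?_)
  · refine (le_inf le_rfl (inf_le_left.trans (inf_le_right.trans k3))).trans ?_
    rw [inf_sup_left]
    refine sup_le inf_le_right (le_trans ?_ (k1.le.trans bot_le))
    exact le_inf (le_inf (inf_le_left.trans (inf_le_left.trans inf_le_left))
      (inf_le_left.trans inf_le_right))
      (le_inf (inf_le_left.trans (inf_le_left.trans inf_le_right)) inf_le_right)
  · rw [← sdiff_eq_bot_iff, sdiff_eq, ← le_bot_iff]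
    refine le_trans ?_ k2.le
    exact le_inf (le_inf (inf_le_left.trans (inf_le_left.trans inf_le_left)) inf_le_right)
      (le_inf (inf_le_left.trans (inf_le_left.trans inf_le_right)) (inf_le_left.trans inf_le_right))

end

variable {V Y Y' : Type} [CompleteBooleanAlgebra V] [CompleteBooleanAlgebra Y]
  [CompleteBooleanAlgebra Y'] [Fact (CCC Y)] [Fact (CCC Y')]

/-- the value of: the image of the cell `s` has measure at most `r` -/
noncomputable def msr (ψ : Hm V (RX Y)) (x : ℕ → V) (s : List Bool) (r : ℚ) : Y :=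
  Big r (ψ (inC x s))ᶜ

theorem msr_rmap (e : Hm Y Y') (ψ : Hm V (RX Y)) (x : ℕ → V) (s : List Bool) (r : ℚ) :
    msr ((rmap e).comp ψ) x s r = e (msr ψ x s r) := by
  rw [msr, msr, ← Big_rmap, hm_compl]
  rfl

theorem In_msr (ψ : Hm V (RX Y)) (x : ℕ → V) :
    ∀ᶠ W in gen Y, ∀ (s : List Bool) (r : ℚ), W.In (msr ψ x s r) ↔ mes (ψ (inC x s)) W ≤ r := by
  refine eventually_countable_forall.2 fun s => eventually_countable_forall.2 fun r => ?_
  filter_upwards [In_Big (r : ℝ) (ψ (inC x s))ᶜ, mes_compl (ψ (inC x s))] with W h1 h2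
  rw [msr, h1, h2]
  constructor <;> intro h <;> linarith

theorem ca_mes_top : ∀ᶠ W in gen Y, mes (⊤ : RX Y) W = 1 := by
  filter_upwards [mes_rg (X := Y) MeasurableSet.univ] with W h
  rwa [rg_univ, probReal_univ] at h

theorem ca_mes_add (ψ : Hm V (RX Y)) (x : ℕ → V) (s : List Bool) :
    ∀ᶠ W in gen Y, mes (ψ (inC x s)) W =
      mes (ψ (inC x (s ++ [false]))) W + mes (ψ (inC x (s ++ [true]))) W := by
  have h1 : inC x (s ++ [false]) ⊔ inC x (s ++ [true]) = inC x s := by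
    rw [inC_concat, inC_concat, ← inf_sup_left]
    exact inf_eq_left.2 (compl_sup_eq_top (x := x s.length) ▸ le_top)
  have h2 : inC x (s ++ [false]) ⊓ inC x (s ++ [true]) = ⊤ᶜ := by
    rw [inC_concat, inC_concat, ← inf_inf_distrib_left, compl_top]
    exact le_bot_iff.1 (inf_le_right.trans (compl_inf_eq_bot (a := x s.length)).le)
  filter_upwards [mes_sup_inf (ψ (inC x (s ++ [false]))) (ψ (inC x (s ++ [true]))),
    mes_compl (⊤ : RX Y), ca_mes_top (Y := Y)] with W k1 k2 k3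
  rw [← map_sup, ← map_inf, h1, h2, hm_compl, map_top, k2, k3] at k1
  linarith

theorem isMeas_msr (ψ : Hm V (RX Y)) (x : ℕ → V) {p : Y}
    (h : ∀ ε : ℚ, 0 < ε → p ≤ ⨆ n, ⨅ s : List Bool, ⨅ _ : s.length = n, msr ψ x s ε) :
    IsMeas p (msr ψ x) where
  mono s a b hab := inf_le_right.trans (Big_mono (by exact_mod_cast hab) le_rfl)
  closed s a := inf_le_right.trans (le_iff_gen.2 (by
    filter_upwards [In_msr ψ x] with W h1 h2
    refine (h1 s a).2 (le_of_forall_gt_imp_ge_of_dense fun c hc => ?_)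
    obtain ⟨b, hb1, hb2⟩ := exists_rat_btwn hc
    exact ((h1 s b).1 (W.mono (iInf₂_le b (by exact_mod_cast hb1)) h2)).trans hb2.le))
  neg s a ha := le_bot_iff.1 (inf_le_right.trans (le_iff_gen.2 (by
    filter_upwards [In_msr ψ x] with W h1 h2
    have h3 := (mes_nonneg _ W).trans ((h1 s a).1 h2)
    exact absurd (by exact_mod_cast h3) (not_le.2 ha))))
  le_one s := le_top.trans (le_iff_gen.2 (by
    filter_upwards [In_msr ψ x] with W h1 _
    exact (h1 s 1).2 (by simpa using mes_le_one _ W)))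
  one {a} ha := le_bot_iff.1 (inf_le_right.trans (le_iff_gen.2 (by
    filter_upwards [In_msr ψ x, ca_mes_top (Y := Y)] with W h1 h0 h2
    have h3 := (h1 [] a).1 h2
    rw [inC_nil, map_top, h0] at h3
    exact absurd (by exact_mod_cast h3) (not_le.2 ha))))
  sub s a b := le_iff_gen.2 (by
    filter_upwards [In_msr ψ x, ca_mes_add ψ x s] with W h1 h0 h2
    rw [W.inf_iff, W.inf_iff, h1, h1] at h2
    rw [h1, h0]
    push_cast
    exact add_le_add h2.1.2 h2.2)
  sup s a b := le_iff_gen.2 (by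
    filter_upwards [In_msr ψ x, ca_mes_add ψ x s] with W h1 h0 h2
    rw [W.inf_iff, h1, h0] at h2
    rw [W.sup_iff, h1, h1]
    by_contra hc
    push Not at hc
    have h3 := h2.2
    push_cast at h3
    linarith [hc.1, hc.2])
  atomless := h

/-- a cover of cost one half leaves a point uncovered -/
theorem ca_uncov (ψ : Hm V (RX Y)) (x : ℕ → V) {p : Y} (hp : p ≠ ⊥) {w : List Bool × ℚ → Y}
    (h : IsCov p (msr ψ x) (1 / 2) w) :
    ri p ⊓ (cov (fun t => ri (w t)) fun n => ψ (x n))ᶜ ≠ ⊥ := by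
  obtain ⟨en⟩ : Nonempty (ℕ ≃ List Bool × ℚ) := nonempty_equiv_of_countable
  have h1 := sub (X := Y) (κ := Unit) (p := p) (ε := 1 / 2) (by norm_num) (fun n _ => w (en n))
    (fun n _ => ((en n).2 : ℝ)) (fun n _ => ψ (inC x (en n).1)) (fun _ _ _ e => (e rfl).elim)
    (fun n _ => h.valid (en n)) fun F _ e => by
      have h2 := h.cost (F.map en.toEmbedding) (by rwa [Finset.inf_map])
      rw [Finset.sum_map] at h2
      have h3 : ((∑ n ∈ F, (en n).2 : ℚ) : ℝ) ≤ ((1 / 2 : ℚ) : ℝ) := by exact_mod_cast h2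
      push_cast at h3
      exact h3
  have h2 : (⨆ n, ⨆ _ : Unit, ri (w (en n)) ⊓ ψ (inC x (en n).1)) =
      cov (fun t => ri (w t)) fun n => ψ (x n) := by
    simp only [iSup_const, cov, ← map_inC]
    exact en.iSup_comp (g := fun t => ri (w t) ⊓ ψ (inC x t.1))
  rw [h2] at h1
  have h3 := h1.trans (Big_le_Pos (by norm_num) _)
  rw [← pj_ne_bot (f := ri), pj_inf']
  exact ne_bot_of_le (le_inf le_rfl h3) hp

end Pool.Agent.Lib.MP_f79ffc_lc.U
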