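import Pool.Agent.Lib.MP_f79ffc_lc.U.C.Api
import Pool.Agent.Lib.MP_f79ffc_lc.U.A.Pure
import Pool.Agent.Lib.MP_f79ffc_lc.U.A.InV

/-! Claim A from the generator and the token step on the level of conditions. -/

namespace Pool.Agent.Lib.MP_f79ffc_lc.U

open Pool.Agent.Lib.MP_5d9fac_lc Pool.Agent.Lib.MP_f79ffc_lc.R Cardinal

instance (q : Cond) : Fact (CCC q.B) := ⟨q.ccc⟩

/-- the homomorphism between the algebras of isomorphic conditions -/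
def Iso.tr {q q' : Cond} (F : Iso q q') : Hm q.B q'.B := (q'.S.e F.top.le).comp (F.m.ι q.top)

theorem Iso.tr_eq {q q' : Cond} (F : Iso q q') {x : q.B} {x' : q'.B}
    (h : q.nm q.top x = q'.nm q'.top x') : F.tr x = x' := by
  have key : ∀ (u v : q'.I) (e : u = v) (y : q'.S.X u), q'.nm v (q'.S.e e.le y) = q'.nm u y := by
    rintro u _ rfl y
    rw [q'.S.e_refl]
  exact q'.nm_inj _ ((key _ _ F.top _).trans ((F.nm _ _).trans h))

/-- `F` matches the template `q₀` with a petal `q₁` that fits into `q'` below `δ` -/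
structure Petal {q₀ q₁ : Cond} (F : Iso q₀ q₁) (d : q₀.I) (q' : Cond) (δ : Mu) : Prop where
  lt : ∀ i, q₁.blk (F.f i) < q₁.blk (F.f d) ↔ q₀.blk i < q₀.blk d
  root : ∀ i, q₀.blk i < q₀.blk d → q₁.blk (F.f i) = q₀.blk i ∧ q₁.tag (F.f i) = q₀.tag i
  sep : ∀ u, q'.blk u < δ → q'.blk u < q₁.blk (F.f d)
  bd : ∀ u, q₁.blk u < δ

/-- what the generator over the template `q₀` and the token step deliver -/
structure GT (q₀ : Cond) (d : q₀.I) (hd : d ≤ q₀.top) (δ : Mu) (qg : Cond)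
    (φ : Hm q₀.B (RX qg.B)) (L : q₀.B → qg.B) : Prop where
  ext : ∀ (q : Cond) (E : Exn q q₀), q.blk q.top < q₀.blk d →
    ∃ Eg : Exn q qg, ∀ p p₀, p₀ ≤ E.tr p → L p₀ ≤ Eg.tr p
  ne : ∀ p, p ≠ ⊥ → L p ≠ ⊥
  le : ∀ p, ri (L p) ≤ sh (root 0) (φ p)
  atm : ∀ p (x : ℕ → q₀.B), (∀ y : ℕ → q₀.S.X d, p ⊓ eqv x (fun n => q₀.S.e hd (y n)) = ⊥) →
    ∀ ε : ℚ, 0 < ε → L p ≤ ⨆ n, ⨅ s : List Bool, ⨅ _ : s.length = n,
      msr ((sh (root 0)).comp φ) x s ε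
  tok : ∀ (q' : Cond) (E : Exn qg q') (q₁ : Cond) (F : Iso q₀ q₁), Petal F d q' δ →
    ∃ (q'' : Cond) (E' : Exn q' q'') (E₁ : Exn q₁ q'') (θ : Hm (RX q'.B) q''.B),
      Function.Injective θ ∧ (∀ x, θ (ri x) = E'.tr x) ∧
        ∀ w, θ (rmap E.tr (φ w)) = E₁.tr (F.tr w)

/-- the generator and token steps exist -/
def GenTok : Prop := ∀ (q₀ : Cond) (d : q₀.I) (hd : d ≤ q₀.top) (ρ δ : Mu),
  (∀ u, q₀.blk u = q₀.blk d → u = d) → (∀ i, q₀.blk i < q₀.blk d → q₀.blk i < ρ) → ρ < δ →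
    ∃ qg φ L, GT q₀ d hd δ qg φ L

theorem ca_le_iInf {q : Cond} {g : BB} {ι : Sort*} {a : ι → q.B} (h0 : g ≤ jq q ⊤)
    (h : ∀ k, g ≤ jq q (a k)) : g ≤ jq q (⨅ k, a k) := by
  rw [jq_iInf]
  exact le_inf h0 (le_iInf h)

theorem IsMeas.jq {q : Cond} {p : q.B} {m : List Bool → ℚ → q.B} (h : IsMeas p m) :
    IsMeas (jq q p) fun s r => jq q (m s r) where
  mono s a b hab := by rw [← jq_inf]; exact jq_mono (h.mono s hab)
  closed s a := by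
    refine le_trans ?_ (jq_mono (h.closed s a))
    have h0 : ∀ z, U.jq q p ⊓ z ≤ U.jq q ⊤ := fun z => inf_le_left.trans (jq_mono le_top)
    rw [jq_inf]
    exact le_inf inf_le_left (ca_le_iInf (h0 _) fun b => ca_le_iInf (h0 _) fun hb =>
      inf_le_right.trans (iInf₂_le b hb))
  neg s a ha := by rw [← jq_inf, h.neg s ha, jq_bot]
  le_one s := jq_mono (h.le_one s)
  one ha := by rw [← jq_inf, h.one ha, jq_bot]
  sub s a b := by rw [← jq_inf, ← jq_inf]; exact jq_mono (h.sub s a b)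
  sup s a b := by rw [← jq_inf, ← jq_sup]; exact jq_mono (h.sup s a b)
  atomless ε hε := by
    refine (jq_mono (h.atomless ε hε)).trans ?_
    rw [jq_iSup]
    exact iSup_mono fun n => le_iInf₂ fun s hs => jq_mono (iInf₂_le s hs)

theorem ca_eqv_cap {q : Cond} {x : ℕ → BB} {y : ℕ → q.B} (h : ∀ n, jq q (y n) = jq q ⊤ ⊓ x n) :
    jq q ⊤ ≤ eqv x fun n => jq q (y n) :=
  eqv_le_iff.2 fun n => by rw [h, inf_left_idem]

/-- a petal at `α` -/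
theorem ca_petal {X : (ℕ → BB) → BB} (hX : Ext X) {q : Cond} {p : q.B} (hp : p ≠ ⊥)
    (hc : ∀ f₁ δ, f₁ ≤ jq q p → f₁ ≠ ⊥ → ¬ InV X δ f₁) (α : Mu) :
    ∃ (q₁ : Cond) (d : q₁.I) (hd : d ≤ q₁.top) (E : Exn q q₁) (p₁ : q₁.B) (x : ℕ → q₁.B),
      q.blk q.top < α → q₁.blk d = α ∧ (∀ u, q₁.blk u = α → u = d) ∧ p₁ ≠ ⊥ ∧ p₁ ≤ E.tr p ∧
        jq q₁ p₁ ≤ X (fun n => jq q₁ (x n)) ∧
        ∀ y : ℕ → q₁.S.X d, p₁ ⊓ eqv x (fun n => q₁.S.e hd (y n)) = ⊥ := by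
  by_cases hα : q.blk q.top < α
  swap
  · exact ⟨q, q.top, le_rfl, Exn.rfl' q, p, fun _ => ⊤, fun h => absurd h hα⟩
  obtain ⟨qd, Ed, b1, b2, -⟩ := q.dup hα
  have h1 : jq qd (Ed.tr p) ≠ ⊥ := jq_eq_bot.not.2 (hm_ne_bot Ed.tr_inj hp)
  have h2 := hc _ α (jq_tr_le Ed le_rfl) h1
  simp only [InV, not_forall, not_exists, not_and, not_not] at h2
  obtain ⟨x, g, hg, hg1, hg2⟩ := h2
  obtain ⟨q2, E2, p2, k1, k2, k3⟩ := exists_ext_le (q := qd) (p := Ed.tr p) (b := g)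
    (by rwa [inf_eq_right.2 (hg1.trans inf_le_left)])
  obtain ⟨q3, E3, y, hy⟩ := capture_fun q2 (ι := ℕ) (by simp [aleph0_le_continuum]) x
  have k4 : jq q3 (E3.tr p2) ≤ g := (jq_tr_le E3 le_rfl).trans k3
  have k5 : jq q3 (E3.tr p2) ≤ eqv x fun n => jq q3 (y n) :=
    (jq_mono le_top).trans (ca_eqv_cap hy)
  refine ⟨q3, (E2.trans E3).f qd.top, (E2.trans E3).top_le, Ed.trans (E2.trans E3), E3.tr p2, y,
    fun _ => ⟨((E2.trans E3).blk _).trans b1, fun u hu => ?_, hm_ne_bot E3.tr_inj k1, ?_, ?_,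
      fun z => ?_⟩⟩
  · obtain ⟨j, rfl⟩ := (E2.trans E3).onto u qd.top (hu.trans b1.symm)
    rw [b2 j (((E2.trans E3).blk j).symm.trans hu)]
  · rw [← Exn.tr_tr Ed (E2.trans E3), ← Exn.tr_tr E2 E3 (E2.trans E3)]
    exact hm_mono _ k2
  · exact (le_inf k5 (k4.trans (hg1.trans inf_le_right))).trans (hX _ _)
  · rw [← jq_eq_bot, jq_inf, jq_eqv, ← le_bot_iff]
    refine le_trans ?_ (hg2 q3 _ (E2.trans E3).top_le z
      (((E2.trans E3).blk _).trans b1).le).le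
    exact le_inf (le_inf (inf_le_left.trans k4) (inf_le_right.trans inf_le_left))
      ((inf_le_inf k5 inf_le_right).trans (ca_eqv_trans _ _ _))

theorem claimA_of (H : GenTok) {X : (ℕ → BB) → BB} (hX : Ext X) {f : BB} (hf : f ≠ ⊥)
    (h : UNb f X) : ∃ f₁ δ, f₁ ≤ f ∧ f₁ ≠ ⊥ ∧ InV X δ f₁ := by
  by_contra hcon
  obtain ⟨q, p, hp, hpf⟩ := exists_jq_le hf
  choose Q d hd E P x hQ using ca_petal hX hp
    fun f₁ δ h1 h2 h3 => hcon ⟨f₁, δ, h1.trans hpf, h2, h3⟩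
  obtain ⟨ρ, hρ⟩ := Mu.press (fun α => Set.range (Q α).blk) fun α => (Q α).mk_range_blk
  have hT : #(Lb × (ℕ → Lb)) ≤ 2 ^ 𝔠 := by
    simp [← power_mul, ← power_add, mk_real]
  obtain ⟨U, hU1, hU2, hU3⟩ := exists_type Q d hT
    (fun α => ((Q α).nm _ (P α), fun n => (Q α).nm _ (x α n))) ρ
    {α | q.blk q.top < α ∧ ∀ i, (Q α).blk i < α → (Q α).blk i < ρ}
    (fun η => by
      obtain ⟨η', h1⟩ := Mu.exists_gt' (ι := Unit)
        (mk_le_aleph0.trans aleph0_le_continuum) fun _ => q.blk q.top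
      obtain ⟨α, h2, h3⟩ := hρ (max η η')
      exact ⟨α, ⟨(h1 ()).trans_le ((le_max_right _ _).trans h2), fun i => h3 _ ⟨i, rfl⟩⟩,
        (le_max_left _ _).trans h2⟩)
    fun α hα => hα.2
  obtain ⟨δ, hδ, hpet⟩ := Mu.petals (fun α => Set.range (Q α).blk) (fun α => (Q α).mk_range_blk)
    U hU2 ρ
  obtain ⟨α, hα, -⟩ := hU2 ρ
  obtain ⟨a1, a2, a3, a4, -, a6⟩ := hQ α (hU1 hα).1
  obtain ⟨qg, φ, L, G⟩ := H (Q α) (d α) (hd α) ρ δ (by rwa [a1]) (by rw [a1]; exact (hU1 hα).2) hδ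
  obtain ⟨Eg, hEg⟩ := G.ext q (E α) (by rw [a1]; exact (hU1 hα).1)
  have hm := (isMeas_msr _ _ (G.atm (P α) (x α) a6)).jq
  obtain ⟨w, hw, hcov⟩ := h _ ((jq_tr_le Eg (hEg p _ a4)).trans hpf) _ hm (1 / 2) (by norm_num)
  obtain ⟨q', E', w', hw'⟩ := capture_fun qg (ι := List Bool × ℚ)
    (mk_le_aleph0.trans aleph0_le_continuum) w
  obtain ⟨β, hβ, -, b2, b3⟩ := hpet _ q'.mk_range_blk
  obtain ⟨c1, -, -, -, c5, -⟩ := hQ β (hU1 hβ).1
  obtain ⟨e1, F, f1, f2, f3⟩ := hU3 α hα β hβ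
  obtain ⟨q'', E'', E₁, θ, t1, t2, t3⟩ := G.tok q' E' (Q β) F
    ⟨fun i => by rw [f1, c1, a1]; exact f2 i, fun i => by rw [a1]; exact f3 i,
      fun u hu => by rw [f1, c1]; exact b2 _ ⟨u, rfl⟩ hu, fun u => b3 _ ⟨u, rfl⟩⟩
  have g1 : F.tr (P α) = P β := F.tr_eq (congrArg Prod.fst e1)
  have g2 : ∀ n, F.tr (x α n) = x β n := fun n => F.tr_eq (congrFun (congrArg Prod.snd e1) n)
  have hc' : IsCov (E'.tr (L (P α))) (msr ((rmap E'.tr).comp ((sh (root 0)).comp φ)) (x α))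
      (1 / 2) w' := by
    refine ⟨fun t => ?_, fun F0 h0 => hw.cost F0 ?_⟩
    · rw [msr_rmap, ← jq_le_iff, jq_inf, jq_tr, jq_tr, hw', ← inf_inf_distrib_left]
      exact inf_le_inf_left _ (hw.valid t)
    · refine ne_bot_of_le ?_ (jq_eq_bot.not.2 h0)
      rw [jq_inf, jq_finset_inf]
      exact inf_le_inf (jq_tr_le E' le_rfl) (inf_le_right.trans
        (Finset.inf_mono_fun fun t _ => (hw' t).le.trans inf_le_right))
  have hu := ca_uncov _ _ (hm_ne_bot E'.tr_inj (G.ne _ a3)) hc'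
  set Z : RX q'.B := ri (E'.tr (L (P α))) ⊓
    (cov (fun t => ri (w' t)) fun n => rmap E'.tr (φ (x α n)))ᶜ ⊓ cyl (root 0) with hZ
  have z1 : Z ≠ ⊥ := fun e => hu (by
    have := congrArg (sh (root 0)) e
    rw [hZ, map_inf, map_inf, sh_cyl, inf_top_eq, sh_ri, hm_compl, map_cov, map_bot] at this
    simp only [sh_ri, ← rmap_sh] at this
    exact this)
  have z2 : Z ≤ rmap E'.tr (φ (P α)) := by
    refine (inf_le_inf_right _ inf_le_left).trans (le_of_sh ?_)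
    rw [sh_ri, ← rmap_sh, ← rmap_ri]
    exact hm_mono _ (G.le _)
  have z3 : θ Z ≤ E₁.tr (P β) := by
    rw [← g1, ← t3]
    exact hm_mono _ z2
  have z4 : θ Z ≤ E''.tr (E'.tr (L (P α))) := by
    rw [← t2]
    exact hm_mono _ (inf_le_left.trans inf_le_left)
  have z5 : jq q'' (θ Z) ≤ cov w fun n => jq (Q β) (x β n) :=
    (le_inf ((jq_tr_le E'' z4).trans (jq_tr_le E' le_rfl)) ((jq_tr_le E₁ z3).trans c5)).trans
      (hcov _)
  have z6 : θ Z ≤ cov (fun t => E''.tr (w' t)) fun n => E₁.tr (x β n) := by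
    rw [← jq_le_iff, jq_cov]
    refine (le_inf (jq_mono (le_top (a := θ Z))) z5).trans (ca_cov (fun t => ?_)
      (ca_eqv_cap fun n => jq_tr E₁ _))
    rw [jq_tr, hw']
    refine le_inf inf_le_left (inf_le_inf_right _ (jq_tr_le E'' (map_top E''.tr).ge))
  have z7 : θ Z ≤ (cov (fun t => E''.tr (w' t)) fun n => E₁.tr (x β n))ᶜ := by
    have := hm_mono θ (show Z ≤ _ from inf_le_left.trans inf_le_right)
    rw [hm_compl, map_cov] at this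
    simpa only [t2, t3, g2] using this
  exact hm_ne_bot t1 z1 (le_bot_iff.1 ((le_inf z6 z7).trans inf_compl_eq_bot.le))

end Pool.Agent.Lib.MP_f79ffc_lc.U
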