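import Pool.Agent.Lib.MP_f79ffc_lc.U.A.Gen
import Pool.Agent.Lib.MP_f79ffc_lc.U.A.IsoE
import Pool.Agent.Lib.MP_f79ffc_lc.U.T.Main
import Pool.Agent.Lib.MP_f79ffc_lc.U.T.GenI

/-! The token step as an amalgam of conditions of the outer forcing. -/

namespace Pool.Agent.Lib.MP_f79ffc_lc.U

open Pool.Agent.Lib.MP_5d9fac_lc Pool.Agent.Lib.MP_f79ffc_lc.R Cardinal

theorem Tin.ca_rmap {R J L I : Type} [Preorder R] [Preorder J] [Preorder L] [Preorder I]
    {τ : Tp R J L} (z : Tin τ I) {u : I} (h : z.x.nN ≤ u) (f : Hm (z.Sk.X (.nd .N)) (z.S.X u))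
    (hf : ∀ y, z.S.e h (z.m.ι (.nd .N) y) = f y) (w : τ.W τ.top) :
    rmap (z.S.e h) (z.Φ (.nd .N) w) = rmap f (z.g.Φ (.nd .N) w) :=
  rmap_rmap (X' := z.S.X z.x.nN) hf _

namespace GD

variable {G : GD} {q' : Cond} (E : Exn G.qg q')

theorem blk_nd (u : Nd G.τ.top) : q'.blk (E.f (.nd u)) = G.δ := E.blk _

theorem nd_mono {u v : Nd G.τ.top} (h : u ≤ v) : E.f (.nd u) ≤ E.f (.nd v) := E.mono h

theorem exists_nd {v : q'.I} (h : q'.blk v = G.δ) : ∃ u, E.f (.nd u) = v := by
  obtain ⟨j, rfl⟩ := E.onto v (.nd .N) h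
  cases j with
  | root i => exact absurd ((E.blk _).symm.trans h) (rb_lt_δ i).ne
  | nd u => exact ⟨u, rfl⟩

theorem exists_nd' {u : Nd G.τ.top} (hu : u ≠ .N) {v : q'.I} (h : E.f (.nd u) ≤ v) :
    q'.blk v = G.δ := by
  refine ((blk_nd E u ▸ q'.le_blk h).lt_or_eq.resolve_left fun e => ?_).symm
  have h1 : u ≤ .N := (E.cut (.nd u)).1 ((q'.lt_iff (by rwa [blk_nd])).1 h)
  cases u <;> first | exact hu rfl | exact h1

theorem low_le {u : q'.I} (h : q'.blk u < G.δ) (v : Nd G.τ.top) :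
    u ≤ E.f (.nd v) ↔ u ≤ q'.top := q'.lt_iff (by rwa [blk_nd])

/-- the position of the generator in a later condition -/
@[reducible] def tix : Tix G.τ q'.I where
  nR i := E.f (.root i)
  nN := E.f (.nd .N)
  nM := E.f (.nd .M)
  nY := E.f (.nd .M)
  nC := E.f (.nd (.C G.τ.bot))
  nE j := E.f (.nd (.C j))
  RR _ _ h := E.mono h
  RN := E.mono (show GI.root G.τ.a ≤ .nd .N from le_refl G.τ.a)
  NM := nd_mono E G.τ.NM
  NY := nd_mono E G.τ.NM
  CM := nd_mono E G.τ.bM
  EE _ _ h := nd_mono E h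
  EY := nd_mono E (show Nd.C G.τ.top ≤ .M from le_refl G.τ.top)
  low u := q'.blk u < G.δ
  low_le h h' := (q'.le_blk h).trans_lt h'
  low_R i := (E.blk _).trans_lt (rb_lt_δ i)
  low_N := (blk_nd E _).not_lt
  low_C := (blk_nd E _).not_lt
  cut_C h h' := (low_le E h _).2 ((low_le E h _).1 h')
  cut_E h h' := (low_le E h _).2 ((low_le E h _).1 h')
  cut_N h h' hv := (low_le E h _).2 ((q'.lt_iff (h.trans_le (not_lt.1 hv))).1 h')
  up {u} h := by
    rcases (not_lt.1 h).lt_or_eq with e | e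
    · exact Or.inl ((q'.lt_iff (by rwa [blk_nd])).2 E.top_le)
    · obtain ⟨v, rfl⟩ := exists_nd E e.symm
      cases v
      exacts [Or.inl le_rfl, Or.inl (nd_mono E G.τ.NM), Or.inr (nd_mono E (G.τ.bC _))]
  both {v} h h' := by
    obtain ⟨u, rfl⟩ := exists_nd E (exists_nd' E (u := .C _) nofun h')
    have h1 := E.refl h
    have h2 := E.refl h'
    cases u <;> first | exact le_rfl | exact h1.elim | exact h2.elim
  mid {u v} h h' h'' := by
    obtain ⟨w, rfl⟩ := exists_nd E (le_antisymm (exists_nd' E (u := .M) nofun h'' ▸ q'.le_blk h')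
      (blk_nd E .N ▸ q'.le_blk h))
    have h1 := E.refl h
    cases w <;> first | exact Or.inl le_rfl | exact Or.inr le_rfl | exact h1.elim
  NC h := (E.refl h).elim
  MN h := (E.refl h).elim

theorem tix_κ : E.f ∘ G.τ.ksh = (tix E).κ := funext fun u => by
  rcases u with _ | _ | _ | _ | _ | _ <;> rfl

variable (G) in
open Classical in
/-- root or petal -/
noncomputable def sp (i : G.q.I) : TT G.τ :=
  if h : G.q.blk i < G.q.blk G.d then .root ⟨i, Or.inl h⟩ else .pet ⟨i, not_lt.1 h⟩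

theorem sp_lt {i : G.q.I} (h : G.q.blk i < G.q.blk G.d) : G.sp i = .root ⟨i, Or.inl h⟩ := dif_pos h

theorem sp_ge (j : G.Pe) : G.sp j.1 = .pet j := dif_neg (not_lt.2 j.2)

theorem sp_cases (i : G.q.I) : (∃ h : G.q.blk i < G.q.blk G.d, G.sp i = .root ⟨i, Or.inl h⟩) ∨
    ∃ h : G.q.blk G.d ≤ G.q.blk i, G.sp i = .pet ⟨i, h⟩ :=
  (lt_or_ge _ _).imp (fun h => ⟨h, sp_lt h⟩) fun h => ⟨h, sp_ge ⟨i, h⟩⟩

theorem sp_tm (i : G.q.I) : G.τ.ktm (G.sp i).kg = i := by
  rcases sp_cases i with ⟨h, e⟩ | ⟨h, e⟩ <;> rw [e]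

theorem sp_mono : Monotone G.sp := fun i j h => by
  rcases sp_cases i with ⟨a, e⟩ | ⟨a, e⟩ <;> rcases sp_cases j with ⟨b, e'⟩ | ⟨b, e'⟩ <;> rw [e, e']
  · exact h
  · exact (G.q.lt_iff a).2 ((G.q.lt_iff (a.trans_le b)).1 h)
  · exact absurd (a.trans (G.q.le_blk h)) (not_le.2 b)
  · exact h

end GD

open GD in
theorem GD.tok (G : GD) (q' : Cond) (E : Exn G.qg q') (q₁ : Cond) (F : Iso G.q q₁)
    (P : Petal F G.d q' G.δ) : ∃ (q'' : Cond) (E' : Exn q' q'') (E₁ : Exn q₁ q'')
      (θ : Hm (RX q'.B) q''.B), Function.Injective θ ∧ (∀ x, θ (ri x) = E'.tr x) ∧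
        ∀ w, θ (rmap E.tr (G.τ.phiN w)) = E₁.tr (F.tr w) := by
  obtain ⟨g, g1, g2⟩ := G.τ.exists_gen
  obtain ⟨m, hm, hk⟩ := Mor.exists_cast (tix E).κ_mono (tix_κ E) (E.m.comap G.τ.ksh G.τ.ksh_mono)
  let z : Tin G.τ q'.I := ⟨G.τ.Sk, inferInstance, g, tix E, q'.S, fun u => ⟨q'.K.ccc u⟩, q'.K, m,
    hk _ _ _ (E.keeps (i := .nd .N) (j := .nd .M) G.τ.NM rfl),
    fun {j j'} h => hk _ _ _ (E.keeps (i := .nd (.C j)) (j := .nd (.C j')) h rfl)⟩
  obtain ⟨S2, m1, m2, K2, hc, k1, k2, k3, hr, hth⟩ := z.tok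
  have hc' : ∀ u, #(S2.X u) ≤ 𝔠 := fun u => by
    obtain ⟨v, hv⟩ := hc u
    exact hv.trans ((power_le_power_right (q'.cardX v)).trans_eq continuum_power_aleph0)
  choose n1 n1i n1e using fun u => exists_nm' (hc' (.old u)) (m1.ι u) (m1.inj u) (q'.nm u)
    (q'.nm_inj u)
  choose n2 n2i n2e using fun j : G.Pe => exists_nm' (hc' (.pet j)) (m2.ι (.pet j))
    (m2.inj (.pet j)) (G.q.nm j.1) (G.q.nm_inj j.1)
  have pj : ∀ j : G.Pe, q₁.blk (F.f G.d) ≤ q₁.blk (F.f j.1) := fun j =>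
    not_lt.1 fun h => not_lt.2 j.2 ((P.lt _).1 h)
  have ht : ¬ q'.blk q'.top < G.δ := not_lt.2 (blk_nd E .N ▸ q'.blk_top _)
  have ne : ∀ u (j : G.Pe), q'.blk u ≠ q₁.blk (F.f j.1) := fun u j e =>
    (P.sep u (e ▸ P.bd _)).not_ge (e ▸ pj j)
  have ft : ∀ i, F.f i ≤ q₁.top ↔ i ≤ G.q.top := fun i => by rw [← F.top, F.f.le_iff_le]
  let bl : (tix E).TI → Mu := fun u => match u with
    | .old u => q'.blk u
    | .pet j => q₁.blk (F.f j.1)
  let tg : (tix E).TI → Lb := fun u => match u with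
    | .old u => q'.tag u
    | .pet j => q₁.tag (F.f j.1)
  let nm : ∀ u, S2.X u → Lb := fun u => match u with
    | .old u => n1 u
    | .pet j => n2 j
  let q'' : Cond :=
    { I := (tix E).TI
      inst := inferInstance
      blk := bl
      tag := tg
      top := .old q'.top
      key_inj := fun {u v} h h' => by
        cases u <;> cases v
        · exact congrArg _ (q'.key_inj h h')
        · exact absurd h (ne _ _)
        · exact absurd h.symm (ne _ _)
        · exact congrArg _ (Subtype.ext (F.f.injective (q₁.key_inj h h')))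
      le_blk := fun {u v} h => by
        cases u <;> cases v
        · exact q'.le_blk h
        · exact (P.sep _ h.1).le.trans (pj _)
        · exact (P.bd _).le.trans (not_lt.1 h.2)
        · exact q₁.le_blk (F.f.monotone h)
      blk_top := fun u => by
        cases u
        exacts [q'.blk_top _, (P.bd _).le.trans (not_lt.1 ht)]
      lt_iff := fun {u v} h => by
        cases u <;> cases v
        · exact q'.lt_iff h
        · have h1 := lt_trans h (P.bd _)
          exact (and_iff_right h1).trans (low_le E h1 _)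
        · exact and_congr_right fun _ =>
            iff_of_true (fun e => (lt_trans h (P.sep _ e)).not_ge (pj _)) ht
        · exact (F.f.le_iff_le.symm.trans ((q₁.lt_iff h).trans (ft _))).trans
            (and_iff_left ht).symm
      S := S2
      K := K2
      cardI := by
        refine (mk_le_of_surjective (f := fun u : q'.I ⊕ G.Pe =>
          (u.elim .old .pet : (tix E).TI)) fun u => ?_).trans ?_
        · cases u
          exacts [⟨.inl _, rfl⟩, ⟨.inr _, rfl⟩]
        · rw [mk_sum, lift_id, lift_id]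
          exact add_le_of_le aleph0_le_continuum q'.cardI ((mk_subtype_le _).trans G.q.cardI)
      cardX := hc'
      nm := nm
      nm_inj := fun u => by
        cases u
        exacts [n1i _, n2i _] }
  let E' : Exn q' q'' :=
    { f := .old
      mono := (tix E).oldI_mono
      refl := id
      blk := fun _ => rfl
      tag := fun _ => rfl
      onto := fun u i h => by
        cases u
        exacts [⟨_, rfl⟩, absurd h.symm (ne _ _)]
      cut := fun _ => Iff.rfl
      m := m1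
      nm := n1e
      keeps := fun h _ => k1 _ _ h }
  let B : Mor G.q.S (G.τ.Sr.comap G.sp sp_mono) :=
    Mor.ofBij (fun i => G.q.S.e (sp_tm i).ge) (fun i => ca_e_bij _ _ (sp_tm i).le) fun h x =>
      (G.q.S.e_trans _ _ x).trans (G.q.S.e_trans _ _ x).symm
  have hnm : ∀ (t : TT G.τ) (y : G.τ.Sr.X t), (∀ i, t = .root i → G.q.blk i.1 < G.q.blk G.d) →
      nm ((tix E).nw t) (m2.ι t y) = G.q.nm (G.τ.ktm t.kg) y := fun t y _ => by
    cases t with
    | root i =>
      rw [hr, g1]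
      refine (n1e _ _).trans ?_
      exact (congrArg (q'.nm _) ((hm (.root i) le_rfl y).trans (q'.S.e_refl _ _))).trans
        (E.nm (.root i) y)
    | pet j => exact n2e j y
  obtain ⟨E₁, hE₁⟩ := exn_of_iso (q₂ := q'') F (fun i => (tix E).nw (G.sp i))
    ((tix E).nw_mono.comp sp_mono)
    (fun {i j} h => by
      rcases sp_cases i with ⟨a, e⟩ | ⟨a, e⟩ <;> rcases sp_cases j with ⟨b, e'⟩ | ⟨b, e'⟩ <;>
        rw [e, e'] at h
      · exact E.refl (i := .root _) (j := .root _) h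
      · exact (G.q.lt_iff (a.trans_le b)).2 ((G.q.lt_iff a).1
          (E.refl (i := .root _) (j := .nd .N) h.2))
      · exact absurd ((tix E).low_R _) h.2
      · exact h)
    (fun i => by
      rcases sp_cases i with ⟨a, e⟩ | ⟨a, e⟩ <;> rw [e]
      exact ((E.blk (.root _)).trans (rb_lt a)).trans (P.root i a).1.symm)
    (fun i => by
      rcases sp_cases i with ⟨a, e⟩ | ⟨a, e⟩ <;> rw [e]
      exact (E.tag (.root _)).trans (P.root i a).2.symm)
    (fun u i h => by
      cases u with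
      | pet j => exact ⟨j.1, by rw [sp_ge]⟩
      | old u =>
        rcases lt_or_ge (G.q.blk i) (G.q.blk G.d) with a | a
        · have h1 : q'.blk u = G.rb ⟨i, Or.inl a⟩ :=
            (h.trans (P.root i a).1).trans (rb_lt (i := ⟨i, _⟩) a).symm
          obtain ⟨j, rfl⟩ := E.onto u (.root ⟨i, Or.inl a⟩) h1
          have h2 := (E.blk j).symm.trans (h1.trans (rb_lt a))
          have h3 := G.hρ _ a
          cases j with
          | nd v => exact absurd h2 (h3.trans G.hδ).ne'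
          | root j =>
            rcases j.2 with b | b
            · exact ⟨j.1, by rw [sp_lt b]⟩
            · exact absurd ((rb_d b).symm.trans h2) h3.ne'
        · exact absurd h (ne u ⟨i, a⟩))
    (fun i => by
      rcases sp_cases i with ⟨a, e⟩ | ⟨a, e⟩ <;> rw [e]
      · exact (E.cut (.root _)).trans (G.q.lt_iff a)
      · exact and_iff_left ht)
    (B.comp (m2.comap G.sp sp_mono))
    (fun i x => (hnm (G.sp i) _ fun r e => by
      rcases sp_cases i with ⟨a, e'⟩ | ⟨a, e'⟩ <;> rw [e'] at e <;> cases e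
      exact a).trans (ca_nm_e G.q (sp_tm i).symm x))
    (fun {i j} h hb => (B.keeps_of_surj h (ca_e_bij _ _ (sp_tm j).le).2).comp (by
      have key : ∀ (s t : TT G.τ) (h : s ≤ t), s = G.sp i → t = G.sp j → m2.Keeps h := by
        intro s t h' e1 e2
        have hl : G.q.blk i < G.q.blk G.d ↔ G.q.blk j < G.q.blk G.d := by
          rw [← P.lt, ← P.lt, hb]
        rcases sp_cases i with ⟨a, e⟩ | ⟨a, e⟩ <;> rcases sp_cases j with ⟨b, e'⟩ | ⟨b, e'⟩
        · obtain rfl := e1.trans e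
          obtain rfl := e2.trans e'
          refine k3 _ _ h' (hk _ _ _ (E.keeps (i := .root _) (j := .root _) h' ?_))
          exact (rb_lt a).trans (((P.root i a).1.symm.trans (hb.trans (P.root j b).1)).trans
            (rb_lt (i := ⟨j, _⟩) b).symm)
        · exact absurd (hl.1 a) (not_lt.2 b)
        · exact absurd (hl.2 b) (not_lt.2 a)
        · obtain rfl := e1.trans e
          obtain rfl := e2.trans e'
          exact k2 _ _ h'
      exact Mor.Keeps.comap (key _ _ (sp_mono h) rfl rfl)))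
  obtain ⟨θ, t1, t2, t3⟩ := hth q'.top E.top_le fun h => ((E.cut (.nd .M)).1 h).elim
  refine ⟨q'', E', E₁, θ, t1, fun x => (t2 x).trans (S2.e_refl _ _).symm, fun w => ?_⟩
  rw [hE₁]
  rw [← g2]
  refine (congrArg θ (z.ca_rmap E.top_le E.tr (fun y => congrArg (q'.S.e E.top_le)
    ((hm (.nd .N) le_rfl y).trans (q'.S.e_refl _ _))) w).symm).trans ((t3 w).trans ?_)
  have key : ∀ (t : TT G.τ) (e : .pet G.τ.top = t) (h : (tix E).nw t ≤ .old q'.top)
      (h' : G.q.top ≤ G.τ.ktm t.kg), S2.e ((tix E).top_le E.top_le) (m2.ι (.pet G.τ.top) w) =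
        S2.e h (m2.ι t (G.q.S.e h' w)) := by
    rintro _ rfl h h'
    rw [G.q.S.e_refl]
  exact key _ (sp_ge G.τ.top).symm _ _

theorem genTok : GenTok := fun q₀ d hd ρ δ h1 h2 h3 =>
  let G : GD := ⟨q₀, d, hd, ρ, δ, h1, h2, h3⟩
  ⟨G.qg, _, _, G.gt_of G.tok⟩

theorem claimA {X : (ℕ → BB) → BB} (hX : Ext X) {f : BB} (hf : f ≠ ⊥) (h : UNb f X) :
    ∃ f₁ δ, f₁ ≤ f ∧ f₁ ≠ ⊥ ∧ InV X δ f₁ := claimA_of genTok hX hf h

end Pool.Agent.Lib.MP_f79ffc_lc.U
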